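import Pool.Agent.helper26.IM.SpecA

/-!
# Project im (MP_b48e27_co): module SPD, separation of points in several variables
-/

set_option autoImplicit false

open Finset Pool.Agent.RRank Pool.Agent.helper35.MR

namespace Pool.Agent.helper26.IM

/-- the algebraic closure of `K(s)`, `s` the last variable, in an algebraically closed field -/
lemma SPD_K1 (d : ℕ) (K : Type) [Field K] (F' : Type) [Field F'] [Algebra K F'] [IsAlgClosed F']
    (lam : Fin (d + 1) → F') (hlam : AlgebraicIndependent K lam) :
    ∃ K₁ : IntermediateField K F', IsAlgClosed K₁ ∧ lam (Fin.last d) ∈ K₁ ∧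
      AlgebraicIndependent K₁ (fun i : Fin d => lam i.castSucc) := by
  set s : F' := lam (Fin.last d) with hs
  let x : Fin 1 → F' := fun _ => s
  let y : Fin d → F' := fun i => lam i.castSucc
  have h1 : AlgebraicIndependent K (Sum.elim y x) := by
    have e : Sum.elim y x = lam ∘ finSumFinEquiv := by
      funext i
      rcases i with i | i
      · rfl
      · have : i = 0 := Subsingleton.elim _ _
        subst this
        rfl
    rw [e]
    exact hlam.comp _ finSumFinEquiv.injective
  have h2 := (AlgebraicIndependent.sumElim_iff.1 h1).2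
  have hr : Set.range x = {s} := Set.range_const
  rw [hr] at h2
  have h3 : AlgebraicIndependent (IntermediateField.adjoin K {s}) y :=
    IntermediateField.algebraicIndependent_adjoin_iff.2 h2
  have h4 := h3.algebraicClosure
  refine ⟨(algebraicClosure (IntermediateField.adjoin K {s}) F').restrictScalars K, ?_, ?_, ?_⟩
  · exact (algebraicClosure.isAlgClosure (IntermediateField.adjoin K {s}) F').isAlgClosed
  · have hsm : s ∈ IntermediateField.adjoin K {s} := IntermediateField.mem_adjoin_simple_self K s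
    have := (algebraicClosure (IntermediateField.adjoin K {s}) F').algebraMap_mem ⟨s, hsm⟩
    exact this
  · exact h4


lemma SPD_deg1 {σ τ K R : Type} [Fintype σ] [DecidableEq σ] [CommRing K] [CommRing R]
    (φ : K →+* MvPolynomial τ R) (g : σ → MvPolynomial τ R) (k : τ) (k' : σ)
    (hφ : ∀ c, MvPolynomial.degreeOf k (φ c) = 0)
    (hg : ∀ i, MvPolynomial.degreeOf k (g i) ≤ if i = k' then 1 else 0) (p : MvPolynomial σ K) :
    MvPolynomial.degreeOf k (MvPolynomial.eval₂ φ g p) ≤ MvPolynomial.degreeOf k' p := by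
  rw [MvPolynomial.eval₂_eq']
  refine (MvPolynomial.degreeOf_sum_le _ _ _).trans (Finset.sup_le fun m hm => ?_)
  refine (MvPolynomial.degreeOf_mul_le _ _ _).trans ?_
  rw [hφ, zero_add]
  refine (MvPolynomial.degreeOf_prod_le _ _ _).trans ?_
  have h1 : ∀ i ∈ (Finset.univ : Finset σ), MvPolynomial.degreeOf k (g i ^ m i) ≤
      if i = k' then m k' else 0 := by
    intro i _
    refine (MvPolynomial.degreeOf_pow_le _ _ _).trans ?_
    have := hg i
    split_ifs at this ⊢ with h
    · subst h
      calc m i * MvPolynomial.degreeOf k (g i) ≤ m i * 1 := Nat.mul_le_mul_left _ this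
        _ = m i := mul_one _
    · rw [Nat.le_zero.1 this, mul_zero]
  refine (Finset.sum_le_sum h1).trans ?_
  rw [Finset.sum_ite_eq']
  simp only [Finset.mem_univ, if_true]
  exact MvPolynomial.monomial_le_degreeOf k' hm

lemma SPD_deg2 {σ K R : Type} [Fintype σ] [DecidableEq σ] [CommRing K] [CommRing R]
    (φ : K →+* Polynomial R) (g : σ → Polynomial R) (k' : σ)
    (hφ : ∀ c, (φ c).natDegree = 0)
    (hg : ∀ i, (g i).natDegree ≤ if i = k' then 1 else 0) (p : MvPolynomial σ K) :
    (MvPolynomial.eval₂ φ g p).natDegree ≤ MvPolynomial.degreeOf k' p := by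
  rw [MvPolynomial.eval₂_eq']
  refine Polynomial.natDegree_sum_le_of_forall_le _ _ (fun m hm => ?_)
  refine (Polynomial.natDegree_mul_le).trans ?_
  rw [hφ, zero_add]
  refine (Polynomial.natDegree_prod_le _ _).trans ?_
  have h1 : ∀ i ∈ (Finset.univ : Finset σ), (g i ^ m i).natDegree ≤
      if i = k' then m k' else 0 := by
    intro i _
    refine (Polynomial.natDegree_pow_le).trans ?_
    have := hg i
    split_ifs at this ⊢ with h
    · subst h
      calc m i * (g i).natDegree ≤ m i * 1 := Nat.mul_le_mul_left _ this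
        _ = m i := mul_one _
    · rw [Nat.le_zero.1 this, mul_zero]
  refine (Finset.sum_le_sum h1).trans ?_
  rw [Finset.sum_ite_eq']
  simp only [Finset.mem_univ, if_true]
  exact MvPolynomial.monomial_le_degreeOf k' hm

/-- the case of no variables -/
lemma SPD_zero (K : Type) [Field K] [IsAlgClosed K] (F : Type) [Field F] [Algebra K F]
    (lam : Fin 0 → F) (J : Type) (e : J → F) (n : ℕ)
    (he : ∀ j, ∃ P : Polynomial (MvPolynomial (Fin 0) K), P.Monic ∧ P.natDegree = n ∧
      Polynomial.eval₂ (MvPolynomial.aeval lam : MvPolynomial (Fin 0) K →ₐ[K] F).toRingHom (e j) P = 0)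
    (a : F) (ha : a ∈ Algebra.adjoin K (Set.range lam ∪ Set.range e)) (ha0 : a ≠ 0) :
    ∃ h : Algebra.adjoin K (Set.range lam ∪ Set.range e) →ₐ[K] K, h ⟨a, ha⟩ ≠ 0 := by
  have hle : Algebra.adjoin K (Set.range lam ∪ Set.range e) ≤ ⊥ := by
    rw [Algebra.adjoin_le_iff]
    rintro x (⟨i, -⟩ | ⟨j, rfl⟩)
    · exact i.elim0
    · obtain ⟨P, hPm, -, hPe⟩ := he j
      have hint : IsIntegral K (e j) := by
        refine ⟨P.map MvPolynomial.constantCoeff, hPm.map _, ?_⟩
        rw [Polynomial.eval₂_map]
        have : (algebraMap K F).comp MvPolynomial.constantCoeff =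
            (MvPolynomial.aeval lam : MvPolynomial (Fin 0) K →ₐ[K] F).toRingHom := by
          apply MvPolynomial.ringHom_ext
          · intro c
            simp
          · intro i
            exact i.elim0
        rw [this]
        exact hPe
      have hd := IsAlgClosed.degree_eq_one_of_irreducible K (minpoly.irreducible hint)
      have := minpoly.mem_range_of_degree_eq_one K (e j) hd
      exact Algebra.mem_bot.2 this
  refine ⟨(Algebra.botEquiv K F).toAlgHom.comp (Subalgebra.inclusion hle), ?_⟩
  intro h0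
  apply ha0
  have h1 : (Algebra.botEquiv K F) (Subalgebra.inclusion hle ⟨a, ha⟩) = 0 := h0
  rw [map_eq_zero_iff _ (Algebra.botEquiv K F).injective] at h1
  exact congrArg Subtype.val h1


/-- the polynomial ring in the first variables over `K₁`, the last variable evaluated at `s` -/
noncomputable def SPD_th (d : ℕ) {K K₁ : Type} [Field K] [Field K₁] [Algebra K K₁] (s : K₁) :
    MvPolynomial (Fin (d + 1)) K →+* MvPolynomial (Fin d) K₁ :=
  MvPolynomial.eval₂Hom (MvPolynomial.C.comp (algebraMap K K₁))
    (Fin.lastCases (MvPolynomial.C s) (fun i => MvPolynomial.X i))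

lemma SPD_th_deg (d : ℕ) {K K₁ : Type} [Field K] [Field K₁] [Algebra K K₁] (s : K₁) (k : Fin d)
    (p : MvPolynomial (Fin (d + 1)) K) :
    MvPolynomial.degreeOf k (SPD_th d s p) ≤ MvPolynomial.degreeOf k.castSucc p := by
  classical
  refine SPD_deg1 _ _ k k.castSucc (fun c => ?_) (fun i => ?_) p
  · exact MvPolynomial.degreeOf_C _ _
  · refine Fin.lastCases ?_ (fun i => ?_) i
    · rw [Fin.lastCases_last, MvPolynomial.degreeOf_C]
      exact Nat.zero_le _
    · rw [Fin.lastCases_castSucc]
      by_cases h : i = k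
      · subst h
        rw [if_pos rfl, MvPolynomial.degreeOf_X_self]
      · rw [MvPolynomial.degreeOf_X_of_ne (fun h' => h h'.symm)]
        exact Nat.zero_le _

/-- the first variables evaluated at `c`, the last variable is `X` -/
noncomputable def SPD_ev (d : ℕ) {K : Type} [Field K] (c : Fin d → K) :
    MvPolynomial (Fin (d + 1)) K →+* Polynomial K :=
  MvPolynomial.eval₂Hom Polynomial.C (Fin.lastCases Polynomial.X (fun i => Polynomial.C (c i)))

lemma SPD_ev_deg (d : ℕ) {K : Type} [Field K] (c : Fin d → K)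
    (p : MvPolynomial (Fin (d + 1)) K) :
    (SPD_ev d c p).natDegree ≤ MvPolynomial.degreeOf (Fin.last d) p := by
  classical
  refine SPD_deg2 _ _ (Fin.last d) (fun c => Polynomial.natDegree_C _) (fun i => ?_) p
  refine Fin.lastCases ?_ (fun i => ?_) i
  · rw [Fin.lastCases_last, if_pos rfl]
    exact Polynomial.natDegree_X_le
  · rw [Fin.lastCases_castSucc, Polynomial.natDegree_C]
    exact Nat.zero_le _

/-- evaluation of the last variable at `s` and of the others at `c` in two ways -/
lemma SPD_comp (d : ℕ) {K K₁ : Type} [Field K] [Field K₁] [Algebra K K₁] (s : K₁) (c : Fin d → K) :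
    (MvPolynomial.aeval (fun i => algebraMap K K₁ (c i)) : MvPolynomial (Fin d) K₁ →ₐ[K₁] K₁).toRingHom.comp
      (SPD_th d (K := K) s) =
    ((Polynomial.aeval s : Polynomial K →ₐ[K] K₁).toRingHom).comp (SPD_ev d c) := by
  apply MvPolynomial.ringHom_ext
  · intro a
    simp [SPD_th, SPD_ev]
  · intro i
    refine Fin.lastCases ?_ (fun i => ?_) i
    · simp [SPD_th, SPD_ev]
    · simp [SPD_th, SPD_ev]

set_option maxHeartbeats 4000000 in
theorem SPD (hOVG : OVG_stmt) : SPD_stmt := by
  intro d
  induction d with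
  | zero =>
    intro K _ _ F _ _ lam _ J _ e n D he S _
    refine ⟨fun i => i.elim0, fun i => i.elim0, ?_⟩
    intro a ha _ ha0
    obtain ⟨h, hh⟩ := SPD_zero K F lam J e n
      (fun j => by
        obtain ⟨P, h1, h2, -, h4⟩ := he j
        exact ⟨P, h1, h2, h4⟩) a ha ha0
    exact ⟨h, fun i => i.elim0, hh⟩
  | succ d ih =>
    intro K _ _ F _ _ lam hlam J _ e n D he S hS
    classical
    cases nonempty_fintype J
    choose P hPm hPn hPD hPe using he
    let F' := AlgebraicClosure F
    let ι : F →ₐ[K] F' := IsScalarTower.toAlgHom K F F'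
    have hι : Function.Injective ι := ι.toRingHom.injective
    let lam' : Fin (d + 1) → F' := fun i => ι (lam i)
    let e' : J → F' := fun j => ι (e j)
    have hlam' : AlgebraicIndependent K lam' := hlam.map' hι
    obtain ⟨K₁, hK₁, hsK, hind⟩ := SPD_K1 d K F' lam' hlam'
    let s : K₁ := ⟨lam' (Fin.last d), hsK⟩
    let lam₁ : Fin d → F' := fun i => lam' i.castSucc
    have hinjK : Function.Injective (algebraMap K K₁) := (algebraMap K K₁).injective
    -- the polynomials over `K₁`
    have hcomp1 : (MvPolynomial.aeval lam₁ : MvPolynomial (Fin d) K₁ →ₐ[K₁] F').toRingHom.comp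
        (SPD_th d s) = ι.toRingHom.comp
          (MvPolynomial.aeval lam : MvPolynomial (Fin (d + 1)) K →ₐ[K] F).toRingHom := by
      apply MvPolynomial.ringHom_ext
      · intro a
        have h1 : (SPD_th d s) (MvPolynomial.C a) = MvPolynomial.C (algebraMap K K₁ a) := by
          simp [SPD_th]
        show (MvPolynomial.aeval lam₁) ((SPD_th d s) (MvPolynomial.C a)) =
          ι ((MvPolynomial.aeval lam) (MvPolynomial.C a))
        rw [h1, MvPolynomial.aeval_C, MvPolynomial.aeval_C, ι.commutes]
        exact (IsScalarTower.algebraMap_apply K K₁ F' a).symm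
      · intro i
        show (MvPolynomial.aeval lam₁) ((SPD_th d s) (MvPolynomial.X i)) =
          ι ((MvPolynomial.aeval lam) (MvPolynomial.X i))
        rw [MvPolynomial.aeval_X]
        refine Fin.lastCases ?_ (fun i => ?_) i
        · have h1 : (SPD_th d s) (MvPolynomial.X (Fin.last d) : MvPolynomial (Fin (d + 1)) K) =
              MvPolynomial.C s := by
            simp [SPD_th]
          rw [h1, MvPolynomial.aeval_C]
          rfl
        · have h1 : (SPD_th d s) (MvPolynomial.X i.castSucc : MvPolynomial (Fin (d + 1)) K) =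
              MvPolynomial.X i := by
            simp [SPD_th]
          rw [h1, MvPolynomial.aeval_X]
    have he1 : ∀ j, ∃ Q : Polynomial (MvPolynomial (Fin d) K₁), Q.Monic ∧ Q.natDegree = n ∧
        (∀ i k, (Q.coeff i).degreeOf k ≤ D) ∧
        Polynomial.eval₂ (MvPolynomial.aeval lam₁ : MvPolynomial (Fin d) K₁ →ₐ[K₁] F').toRingHom
          (e' j) Q = 0 := by
      intro j
      refine ⟨(P j).map (SPD_th d s), (hPm j).map _, ?_, ?_, ?_⟩
      · rw [(hPm j).natDegree_map, hPn]
      · intro i k
        rw [Polynomial.coeff_map]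
        exact (SPD_th_deg d s k _).trans (hPD j i _)
      · rw [Polynomial.eval₂_map, hcomp1]
        have := Polynomial.hom_eval₂ (P j)
          (MvPolynomial.aeval lam : MvPolynomial (Fin (d + 1)) K →ₐ[K] F).toRingHom ι.toRingHom (e j)
        rw [hPe j, map_zero] at this
        exact this.symm
    obtain ⟨C₁, hC₁, hsep₁⟩ := ih K₁ F' lam₁ hind J e' n D he1 ((algebraMap K K₁) '' S)
      (hS.image hinjK.injOn)
    -- the finite sets for the first variables
    have hC' : ∀ i, ∃ C' : Finset K, (C' : Set K) ⊆ S ∧ C'.image (algebraMap K K₁) = C₁ i := by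
      intro i
      exact Finset.subset_set_image_iff.1 (hC₁ i).1
    choose C' hC'S hC'im using hC'
    have hC'card : ∀ i, (C' i).card = n * D + 1 := by
      intro i
      rw [← (hC₁ i).2, ← hC'im i, Finset.card_image_of_injective _ hinjK]
    -- the values
    let ps : Polynomial K →+* K₁ := (Polynomial.aeval s : Polynomial K →ₐ[K] K₁).toRingHom
    let V : Set K₁ := {v | ∃ j, ∃ c ∈ Fintype.piFinset C',
      Polynomial.eval₂ ps v ((P j).map (SPD_ev d c)) = 0}
    have hV : V.Finite := by
      have hVe : V = ⋃ j, ⋃ c ∈ Fintype.piFinset C',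
          {v | Polynomial.eval₂ ps v ((P j).map (SPD_ev d c)) = 0} := by
        ext v
        simp [V]
      rw [hVe]
      refine Set.finite_iUnion fun j => Set.Finite.biUnion (Finset.finite_toSet _) fun c _ => ?_
      have hne : ((P j).map (SPD_ev d c)).map ps ≠ 0 := (((hPm j).map _).map _).ne_zero
      refine (Polynomial.finite_setOfPred_isRoot hne).subset ?_
      intro v hv
      show Polynomial.IsRoot _ v
      rw [Polynomial.IsRoot.def, Polynomial.eval_map]
      exact hv
    have : Finite V := hV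
    have htr : Transcendental K s := by
      have h1 : Transcendental K (lam' (Fin.last d)) := hlam'.transcendental _
      intro h2
      apply h1
      exact (isAlgebraic_algebraMap_iff (R := K) (S := K₁) (A := F')
        (algebraMap K₁ F').injective (a := s)).2 h2
    obtain ⟨Bad, hBad⟩ := hOVG K K₁ s htr V (fun v => (v : K₁)) n D (by
      rintro ⟨v, j, c, -, hv⟩
      refine ⟨(P j).map (SPD_ev d c), (hPm j).map _, ?_, ?_, hv⟩
      · rw [(hPm j).natDegree_map, hPn]
      · intro i
        rw [Polynomial.coeff_map]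
        exact (SPD_ev_deg d c _).trans (hPD j i _))
    obtain ⟨Cd, hCdS, hCdc⟩ := (hS.sdiff Bad.finite_toSet).exists_subset_card_eq (n * D + 1)
    have hdisj : Disjoint Cd Bad := by
      rw [Finset.disjoint_left]
      intro x hx hx'
      exact (hCdS hx).2 hx'
    have hsep₂ := hBad Cd hdisj (by rw [hCdc]; exact Nat.lt_succ_self _)
    refine ⟨Fin.snoc (α := fun _ => Finset K) C' Cd, ?_, ?_⟩
    · intro i
      refine Fin.lastCases ?_ (fun i => ?_) i
      · rw [Fin.snoc_last]
        exact ⟨fun x hx => (hCdS hx).1, hCdc⟩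
      · rw [Fin.snoc_castSucc]
        exact ⟨hC'S i, hC'card i⟩
    intro a ha haspan ha0
    set A₁ : Subalgebra K₁ F' := Algebra.adjoin K₁ (Set.range lam₁ ∪ Set.range e') with hA₁
    have heA₁ : ∀ j, e' j ∈ A₁ := fun j => Algebra.subset_adjoin (Or.inr ⟨j, rfl⟩)
    have hlA₁ : ∀ i, lam₁ i ∈ A₁ := fun i => Algebra.subset_adjoin (Or.inl ⟨i, rfl⟩)
    obtain ⟨cf, hcf⟩ := (Submodule.mem_span_range_iff_exists_fun K).1 haspan
    have hιa : ι a = ∑ j, algebraMap K₁ F' (algebraMap K K₁ (cf j)) * e' j := by
      rw [← hcf, map_sum]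
      refine Finset.sum_congr rfl (fun j _ => ?_)
      rw [map_smul, Algebra.smul_def, IsScalarTower.algebraMap_apply K K₁ F']
    have haspan₁ : ι a ∈ Submodule.span K₁ (Set.range e') := by
      rw [hιa]
      refine Submodule.sum_mem _ (fun j _ => ?_)
      rw [← Algebra.smul_def]
      exact Submodule.smul_mem _ _ (Submodule.subset_span ⟨j, rfl⟩)
    have haA₁ : ι a ∈ A₁ := by
      rw [hιa]
      refine Subalgebra.sum_mem _ (fun j _ => ?_)
      exact A₁.mul_mem (A₁.algebraMap_mem _) (heA₁ j)
    obtain ⟨h₁, h₁C, h₁a⟩ := hsep₁ (ι a) haA₁ haspan₁ (fun h0 => ha0 (hι (h0.trans (map_zero ι).symm)))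
    -- values of `h₁`
    have hval : ∀ i, ∃ c ∈ C' i, h₁ ⟨lam₁ i, hlA₁ i⟩ = algebraMap K K₁ c := by
      intro i
      have h2 := h₁C i
      rw [← hC'im i, Finset.mem_image] at h2
      obtain ⟨c, hc, h3⟩ := h2
      exact ⟨c, hc, h3.symm⟩
    choose c hcC hc using hval
    have hvV : ∀ j, h₁ ⟨e' j, heA₁ j⟩ ∈ V := by
      intro j
      refine ⟨j, c, Fintype.mem_piFinset.2 hcC, ?_⟩
      -- the relation in `A₁`
      have hrel : Polynomial.eval₂ (MvPolynomial.aeval (fun i => (⟨lam₁ i, hlA₁ i⟩ : A₁)) :
          MvPolynomial (Fin d) K₁ →ₐ[K₁] A₁).toRingHom (⟨e' j, heA₁ j⟩ : A₁)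
          ((P j).map (SPD_th d s)) = 0 := by
        apply Subtype.val_injective
        have h2 := Polynomial.hom_eval₂ ((P j).map (SPD_th d s))
          (MvPolynomial.aeval (fun i => (⟨lam₁ i, hlA₁ i⟩ : A₁)) :
            MvPolynomial (Fin d) K₁ →ₐ[K₁] A₁).toRingHom A₁.val.toRingHom (⟨e' j, heA₁ j⟩ : A₁)
        have h3 : A₁.val.toRingHom.comp (MvPolynomial.aeval (fun i => (⟨lam₁ i, hlA₁ i⟩ : A₁)) :
            MvPolynomial (Fin d) K₁ →ₐ[K₁] A₁).toRingHom =
            (MvPolynomial.aeval lam₁ : MvPolynomial (Fin d) K₁ →ₐ[K₁] F').toRingHom := by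
          apply MvPolynomial.ringHom_ext
          · intro a
            simp
          · intro i
            simp
        rw [h3] at h2
        refine h2.trans ?_
        rw [Polynomial.eval₂_map, hcomp1]
        have := Polynomial.hom_eval₂ (P j)
          (MvPolynomial.aeval lam : MvPolynomial (Fin (d + 1)) K →ₐ[K] F).toRingHom ι.toRingHom (e j)
        rw [hPe j, map_zero] at this
        exact this.symm
      have h4 := congrArg h₁.toRingHom hrel
      rw [Polynomial.hom_eval₂, map_zero] at h4
      have h5 : h₁.toRingHom.comp (MvPolynomial.aeval (fun i => (⟨lam₁ i, hlA₁ i⟩ : A₁)) :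
          MvPolynomial (Fin d) K₁ →ₐ[K₁] A₁).toRingHom =
          (MvPolynomial.aeval (fun i => algebraMap K K₁ (c i)) :
            MvPolynomial (Fin d) K₁ →ₐ[K₁] K₁).toRingHom := by
        apply MvPolynomial.ringHom_ext
        · intro a
          simp
          exact h₁.commutes a
        · intro i
          have := hc i
          simp [this]
      rw [h5, Polynomial.eval₂_map, SPD_comp] at h4
      rw [Polynomial.eval₂_map]
      exact h4
    set B₂ : Subalgebra K K₁ := Algebra.adjoin K (insert s (Set.range fun v : V => (v : K₁))) with hB₂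
    have hVB : ∀ v ∈ V, v ∈ B₂ := fun v hv =>
      Algebra.subset_adjoin (Set.mem_insert_of_mem _ ⟨⟨v, hv⟩, rfl⟩)
    have hh₁a : h₁ ⟨ι a, haA₁⟩ = ∑ j, cf j • h₁ ⟨e' j, heA₁ j⟩ := by
      have e1 : (⟨ι a, haA₁⟩ : A₁) = ∑ j, (algebraMap K K₁ (cf j)) • (⟨e' j, heA₁ j⟩ : A₁) := by
        apply Subtype.val_injective
        show ι a = A₁.val (∑ j, (algebraMap K K₁ (cf j)) • (⟨e' j, heA₁ j⟩ : A₁))
        rw [hιa, map_sum]
        refine Finset.sum_congr rfl (fun j _ => ?_)
        rw [map_smul, Algebra.smul_def]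
        rfl
      rw [e1, map_sum]
      refine Finset.sum_congr rfl (fun j _ => ?_)
      rw [map_smul, algebraMap_smul]
    have hspan₂ : h₁ ⟨ι a, haA₁⟩ ∈ Submodule.span K (Set.range fun v : V => (v : K₁)) := by
      rw [hh₁a]
      refine Submodule.sum_mem _ (fun j _ => Submodule.smul_mem _ _ ?_)
      exact Submodule.subset_span ⟨⟨_, hvV j⟩, rfl⟩
    have hmem₂ : h₁ ⟨ι a, haA₁⟩ ∈ B₂ := by
      rw [hh₁a]
      exact Subalgebra.sum_mem _ (fun j _ => B₂.smul_mem (hVB _ (hvV j)) _)
    obtain ⟨h₂, h₂s, h₂a⟩ := hsep₂ _ hmem₂ hspan₂ h₁a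
    -- the composition
    set A : Subalgebra K F := Algebra.adjoin K (Set.range lam ∪ Set.range e) with hA
    have hlast : lam' (Fin.last d) = algebraMap K₁ F' s := rfl
    have hAA₁ : ∀ x ∈ A, ι x ∈ A₁ := by
      intro x hx
      refine Algebra.adjoin_induction (p := fun x _ => ι x ∈ A₁) ?_ ?_ ?_ ?_ hx
      · rintro x (⟨i, rfl⟩ | ⟨j, rfl⟩)
        · refine Fin.lastCases ?_ (fun i => ?_) i
          · show lam' (Fin.last d) ∈ A₁
            rw [hlast]
            exact A₁.algebraMap_mem _
          · exact hlA₁ i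
        · exact heA₁ j
      · intro r
        rw [ι.commutes, IsScalarTower.algebraMap_apply K K₁ F']
        exact A₁.algebraMap_mem _
      · intro x y _ _ h2 h3
        rw [map_add]
        exact A₁.add_mem h2 h3
      · intro x y _ _ h2 h3
        rw [map_mul]
        exact A₁.mul_mem h2 h3
    have hAB₂ : ∀ x (hx : x ∈ A), h₁ ⟨ι x, hAA₁ x hx⟩ ∈ B₂ := by
      intro x hx
      refine Algebra.adjoin_induction (p := fun x hx => h₁ ⟨ι x, hAA₁ x hx⟩ ∈ B₂) ?_ ?_ ?_ ?_ hx
      · rintro x (⟨i, rfl⟩ | ⟨j, rfl⟩)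
        · revert i
          refine Fin.lastCases ?_ (fun i => ?_)
          · have e1 : h₁ ⟨ι (lam (Fin.last d)), hAA₁ _ (Algebra.subset_adjoin (Or.inl ⟨_, rfl⟩))⟩ = s :=
              h₁.commutes s
            rw [e1]
            exact Algebra.subset_adjoin (Set.mem_insert _ _)
          · have e1 : h₁ ⟨ι (lam i.castSucc), hAA₁ _ (Algebra.subset_adjoin (Or.inl ⟨_, rfl⟩))⟩ =
              algebraMap K K₁ (c i) := hc i
            rw [e1]
            exact B₂.algebraMap_mem _
        · exact hVB _ (hvV j)
      · intro r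
        have e1 : h₁ ⟨ι (algebraMap K F r), hAA₁ _ (A.algebraMap_mem r)⟩ = algebraMap K K₁ r := by
          have e0 : (⟨ι (algebraMap K F r), hAA₁ _ (A.algebraMap_mem r)⟩ : A₁) =
              algebraMap K₁ A₁ (algebraMap K K₁ r) := by
            apply Subtype.val_injective
            show ι (algebraMap K F r) = algebraMap K₁ F' (algebraMap K K₁ r)
            rw [ι.commutes, IsScalarTower.algebraMap_apply K K₁ F']
          rw [e0]
          exact h₁.commutes _
        rw [e1]
        exact B₂.algebraMap_mem _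
      · intro x y hx hy h2 h3
        have e1 : h₁ ⟨ι (x + y), hAA₁ _ (A.add_mem hx hy)⟩ =
            h₁ ⟨ι x, hAA₁ x hx⟩ + h₁ ⟨ι y, hAA₁ y hy⟩ := by
          rw [← map_add]
          congr 1
          exact Subtype.ext (map_add ι x y)
        rw [e1]
        exact B₂.add_mem h2 h3
      · intro x y hx hy h2 h3
        have e1 : h₁ ⟨ι (x * y), hAA₁ _ (A.mul_mem hx hy)⟩ =
            h₁ ⟨ι x, hAA₁ x hx⟩ * h₁ ⟨ι y, hAA₁ y hy⟩ := by
          rw [← map_mul]
          congr 1
          exact Subtype.ext (map_mul ι x y)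
        rw [e1]
        exact B₂.mul_mem h2 h3
    let g : A → B₂ := fun x => ⟨h₁ ⟨ι x, hAA₁ x x.2⟩, hAB₂ x x.2⟩
    have g_alg : ∀ r : K, g (algebraMap K A r) = algebraMap K B₂ r := by
      intro r
      apply Subtype.ext
      show h₁ ⟨ι (algebraMap K F r), _⟩ = algebraMap K K₁ r
      have e0 : (⟨ι (algebraMap K F r), hAA₁ _ (A.algebraMap_mem r)⟩ : A₁) =
          algebraMap K₁ A₁ (algebraMap K K₁ r) := by
        apply Subtype.val_injective
        show ι (algebraMap K F r) = algebraMap K₁ F' (algebraMap K K₁ r)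
        rw [ι.commutes, IsScalarTower.algebraMap_apply K K₁ F']
      rw [e0]
      exact h₁.commutes _
    have g_add : ∀ x y, g (x + y) = g x + g y := by
      intro x y
      apply Subtype.ext
      show h₁ ⟨ι (x + y : A), _⟩ = h₁ ⟨ι x, _⟩ + h₁ ⟨ι y, _⟩
      rw [← map_add]
      congr 1
      exact Subtype.ext (map_add ι (x : F) (y : F))
    have g_mul : ∀ x y, g (x * y) = g x * g y := by
      intro x y
      apply Subtype.ext
      show h₁ ⟨ι (x * y : A), _⟩ = h₁ ⟨ι x, _⟩ * h₁ ⟨ι y, _⟩
      rw [← map_mul]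
      congr 1
      exact Subtype.ext (map_mul ι (x : F) (y : F))
    let h : A →ₐ[K] K :=
      { toFun := fun x => h₂ (g x)
        map_one' := by
          have := g_alg 1
          rw [map_one, map_one] at this
          rw [this, map_one]
        map_mul' := fun x y => by rw [g_mul, map_mul]
        map_zero' := by
          have := g_alg 0
          rw [map_zero, map_zero] at this
          rw [this, map_zero]
        map_add' := fun x y => by rw [g_add, map_add]
        commutes' := fun r => by
          show h₂ (g (algebraMap K A r)) = _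
          rw [g_alg, h₂.commutes] }
    refine ⟨h, ?_, ?_⟩
    · refine Fin.lastCases ?_ (fun i => ?_)
      · rw [Fin.snoc_last]
        show h₂ (g ⟨lam (Fin.last d), _⟩) ∈ Cd
        have e1 : g ⟨lam (Fin.last d), Algebra.subset_adjoin (Or.inl ⟨_, rfl⟩)⟩ =
            ⟨s, Algebra.subset_adjoin (Set.mem_insert _ _)⟩ := Subtype.ext (h₁.commutes s)
        rw [e1]
        exact h₂s
      · rw [Fin.snoc_castSucc]
        show h₂ (g ⟨lam i.castSucc, _⟩) ∈ C' i
        have e1 : g ⟨lam i.castSucc, Algebra.subset_adjoin (Or.inl ⟨_, rfl⟩)⟩ =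
            algebraMap K B₂ (c i) := Subtype.ext (hc i)
        rw [e1, h₂.commutes]
        exact hcC i
    · exact h₂a

end Pool.Agent.helper26.IM
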